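import Pool.Agent.H50.LV.Targets

set_option autoImplicit false

open Finset MeasureTheory Pool.Agent.H24.CL Pool.Agent.H24.LV Pool.Agent.H50.LV

namespace Pool.Agent.H57.LVE

lemma amd_coe (x y : ℝ) (m : ℤ) (h : x - y = m) : (x : UnitAddCircle) = (y : UnitAddCircle) := by
  have h1 : x = y + m := by linarith
  rw [h1, AddCircle.coe_add]
  have h2 : ((m : ℝ) : UnitAddCircle) = 0 := by
    rw [AddCircle.coe_eq_zero_iff]
    exact ⟨m, by simp⟩
  rw [h2, add_zero]

theorem pf_AMD : T_AMD := by
  intro k q f f' N η τ ξ hq hf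
  have hq0 : (q : ℝ) ≠ 0 := by
    have : (1 : ℝ) ≤ q := by exact_mod_cast hq
    positivity
  have hm : ∀ i : Fin k, ∃ m : ℤ, i.val ≠ 0 → f i - f' i = q * m := by
    intro i
    by_cases hi : i.val = 0
    · exact ⟨0, fun h => absurd hi h⟩
    · obtain ⟨m, hm⟩ := hf i hi
      exact ⟨m, fun _ => hm⟩
  choose m hm using hm
  have hAl : ∀ l : ℤ, Al q f l = Al q f' l := by
    intro l
    unfold Al
    congr 3
    refine Finset.sum_congr rfl (fun z _ => ?_)
    congr 1
    refine amd_coe _ _ (∑ i : Fin k, if i.val = 0 then 0 else m i * (z : ℤ) ^ (i.val + 1)) ?_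
    rw [← sub_div, sub_sub_sub_cancel_right, ← Finset.sum_sub_distrib, Finset.sum_div]
    push_cast
    refine Finset.sum_congr rfl (fun i _ => ?_)
    by_cases hi : i.val = 0
    · simp [hi]
    · rw [if_neg hi, if_neg hi, if_neg hi, ← sub_mul]
      have h1 : (f i : ℝ) - f' i = q * m i := by exact_mod_cast hm i hi
      rw [h1]
      field_simp
  unfold VF
  exact Finset.sum_congr rfl (fun l _ => by rw [hAl])

end Pool.Agent.H57.LVE
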