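import Pool.Agent.H50.LV.Targets

set_option autoImplicit false

open Finset MeasureTheory Pool.Agent.H24.CL Pool.Agent.H24.LV Pool.Agent.H50.LV

namespace Pool.Agent.H57.LVE

theorem pf_ARC : T_ARC := by
  intro a b hab
  have hsub : ((fun x : ℝ => (x : UnitAddCircle)) '' Set.Icc a b) ⊆
      Metric.closedBall (((a + b) / 2 : ℝ) : UnitAddCircle) ((b - a) / 2) := by
    rintro y ⟨x, hx, rfl⟩
    rw [Metric.mem_closedBall, dist_eq_norm]
    have h1 : ((x : ℝ) : UnitAddCircle) - (((a + b) / 2 : ℝ) : UnitAddCircle) =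
        ((x - (a + b) / 2 : ℝ) : UnitAddCircle) := by
      rw [AddCircle.coe_sub]
    simp only
    rw [h1, UnitAddCircle.norm_eq]
    have h2 := round_le (x - (a + b) / 2) 0
    rw [Int.cast_zero, sub_zero] at h2
    refine h2.trans ?_
    rw [abs_le]
    constructor
    · linarith [hx.1]
    · linarith [hx.2]
  have hfin : volume (Metric.closedBall (((a + b) / 2 : ℝ) : UnitAddCircle) ((b - a) / 2)) ≠ ⊤ := by
    rw [AddCircle.volume_closedBall]
    exact ENNReal.ofReal_ne_top
  refine (measureReal_mono hsub hfin).trans ?_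
  rw [measureReal_def, AddCircle.volume_closedBall, ENNReal.toReal_ofReal
    (le_min (by norm_num) (by linarith))]
  refine (min_le_right _ _).trans ?_
  linarith

end Pool.Agent.H57.LVE
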