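import Pool.Agent.H50.LV.Targets

set_option autoImplicit false

open Finset MeasureTheory Pool.Agent.H24.CL Pool.Agent.H24.LV Pool.Agent.H50.LV

namespace Pool.Agent.H57.LVE

theorem pf_GIS : T_GIS := by
  intro k N η τ s hN
  have hN0 : (N : ℝ) ≠ 0 := by
    have : (1 : ℝ) ≤ N := by exact_mod_cast hN
    positivity
  have hint : ∀ y : ℝ, e ((((N : ℝ) * s) * y + (Pc fun i : Fin k =>
      η i * (N : ℝ) ^ (i.val + 1)).eval y : ℝ) : UnitAddCircle) =
      (fun x : ℝ => e ((s * x + ∑ i : Fin k, (if i.val = 0 then 0 else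
      η i * x ^ (i.val + 1)) : ℝ) : UnitAddCircle)) ((N : ℝ) * y) := by
    intro y
    simp only
    congr 2
    unfold Pc
    rw [Polynomial.eval_finsetSum]
    congr 1
    · ring
    · refine Finset.sum_congr rfl (fun i _ => ?_)
      by_cases hi : i.val = 0
      · simp [hi]
      · rw [if_neg hi, if_neg hi, Polynomial.eval_mul, Polynomial.eval_C, Polynomial.eval_pow,
          Polynomial.eval_X, mul_pow]
        ring
  unfold gI OP
  congr 2
  rw [intervalIntegral.integral_congr (g := fun y => (fun x : ℝ => e ((s * x + ∑ i : Fin k,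
    (if i.val = 0 then 0 else η i * x ^ (i.val + 1)) : ℝ) : UnitAddCircle)) ((N : ℝ) * y))
    (fun y _ => hint y), intervalIntegral.integral_comp_mul_left (fun x : ℝ => e ((s * x +
    ∑ i : Fin k, (if i.val = 0 then 0 else η i * x ^ (i.val + 1)) : ℝ) : UnitAddCircle)) hN0]
  have e1 : (N : ℝ) * (τ / N) = τ := by field_simp
  have e2 : (N : ℝ) * (τ / N + 1) = τ + N := by field_simp
  rw [e1, e2, Complex.real_smul]
  congr 1
  push_cast
  rw [one_div]

end Pool.Agent.H57.LVE
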