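import Pool.Agent.H50.LV.Targets

set_option autoImplicit false

open Finset MeasureTheory Pool.Agent.H24.CL Pool.Agent.H24.LV Pool.Agent.H50.LV

namespace Pool.Agent.H57.LVE

theorem pf_QSM : T_QSM := by
  intro κ hκ
  have hs : Summable (fun n : ℕ => (n : ℝ) ^ (-κ)) := Real.summable_nat_rpow.mpr (by linarith)
  have h0 : ∀ n : ℕ, 0 ≤ (n : ℝ) ^ (-κ) := fun n => by positivity
  refine ⟨1 + ∑' n : ℕ, (n : ℝ) ^ (-κ), ?_, ?_⟩
  · have : 0 ≤ ∑' n : ℕ, (n : ℝ) ^ (-κ) := tsum_nonneg h0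
    linarith
  · intro Q
    have := hs.sum_le_tsum (Icc 1 Q) (fun n _ => h0 n)
    linarith

end Pool.Agent.H57.LVE
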